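import Pool.Agent.Lib.MP_db08e8_al.Model

/-!
# A minimal field topology that is not locally bounded

On the field `ℚ(x₀, x₁, x₂, …)` of rational functions in countably many variables there is a first
countable Hausdorff field topology which is not locally bounded and cannot be weakened.
-/

set_option autoImplicit false

namespace Pool.Agent.Results.MP_db08e8_al.RationalFunctions

open Filter Topology MeasureTheory
open scoped ENNReal

/-- `t` is a field topology: Hausdorff, addition, negation and multiplication are continuous, and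
inversion is continuous outside `0`. -/
structure IsFieldTopology (F : Type) [Field F] (t : TopologicalSpace F) : Prop where
  hausdorff : ∀ x y : F, x ≠ y → ∃ U V : Set F,
    IsOpen[t] U ∧ IsOpen[t] V ∧ x ∈ U ∧ y ∈ V ∧ Disjoint U V
  add : Continuous[@instTopologicalSpaceProd F F t t, t] (fun p : F × F => p.1 + p.2)
  neg : Continuous[t, t] (fun x : F => -x)
  mul : Continuous[@instTopologicalSpaceProd F F t t, t] (fun p : F × F => p.1 * p.2)
  inv : @ContinuousOn F F t t (fun x => x⁻¹) {x | x ≠ 0}

/-- `B` is bounded: for every neighbourhood `V` of `0` there is a neighbourhood `W` of `0` with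
`W B ⊆ V`. -/
def IsBdd (F : Type) [Field F] (t : TopologicalSpace F) (B : Set F) : Prop :=
  ∀ V ∈ @nhds F t 0, ∃ W ∈ @nhds F t 0, ∀ w ∈ W, ∀ b ∈ B, w * b ∈ V

/-- `t` is locally bounded: `0` has a bounded neighbourhood. -/
def IsLocallyBounded (F : Type) [Field F] (t : TopologicalSpace F) : Prop :=
  ∃ U ∈ @nhds F t 0, IsBdd F t U

/-- `t` cannot be weakened: no field topology has strictly fewer open sets. -/
def IsMinimal (F : Type) [Field F] (t : TopologicalSpace F) : Prop :=
  ∀ s : TopologicalSpace F, IsFieldTopology F s → (∀ U : Set F, IsOpen[s] U → IsOpen[t] U) →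
    ∀ U : Set F, IsOpen[t] U → IsOpen[s] U

section

variable {F : Type} [Field F] {t : TopologicalSpace F}

theorem of_isFieldTopology (h : IsFieldTopology F t) :
    @IsTopologicalDivisionRing F _ t ∧ @T2Space F t := by
  let _ : TopologicalSpace F := t
  have h1 : ContinuousAdd F := ⟨h.add⟩
  have h2 : ContinuousMul F := ⟨h.mul⟩
  have h3 : ContinuousNeg F := ⟨h.neg⟩
  have h4 : T2Space F := ⟨fun x y hxy => h.hausdorff x y hxy⟩
  have h5 : IsTopologicalSemiring F := {}
  have h6 : IsTopologicalRing F := {}
  refine ⟨@IsTopologicalDivisionRing.mk F _ _ h6 ⟨?_⟩, h4⟩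
  intro x hx
  exact (h.inv x hx).continuousAt (isOpen_ne.mem_nhds hx)

theorem isFieldTopology_of [IsTopologicalDivisionRing F] [T2Space F] : IsFieldTopology F t where
  hausdorff _ _ hxy := t2_separation hxy
  add := continuous_add
  neg := continuous_neg
  mul := continuous_mul
  inv := continuousOn_inv₀

end

theorem result : ∃ t : TopologicalSpace (FractionRing (MvPolynomial ℕ ℚ)),
    IsFieldTopology (FractionRing (MvPolynomial ℕ ℚ)) t ∧
    ¬ IsLocallyBounded (FractionRing (MvPolynomial ℕ ℚ)) t ∧
    IsMinimal (FractionRing (MvPolynomial ℕ ℚ)) t ∧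
    @FirstCountableTopology (FractionRing (MvPolynomial ℕ ℚ)) t := by
  have h := Pool.Agent.MP_db08e8_al.model
  set t : TopologicalSpace (FractionRing (MvPolynomial ℕ ℚ)) :=
    (Pool.Agent.MP_db08e8_al.basis h).topology with ht
  have hdiv : @IsTopologicalDivisionRing (FractionRing (MvPolynomial ℕ ℚ)) _ t :=
    Pool.Agent.MP_db08e8_al.isTopologicalDivisionRing h
  have ht2 : @T2Space (FractionRing (MvPolynomial ℕ ℚ)) t := Pool.Agent.MP_db08e8_al.t2 h
  refine ⟨t, isFieldTopology_of, ?_, ?_, ?_⟩
  · exact Pool.Agent.MP_db08e8_al.not_locallyBounded h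
  · intro s hs hle U hU
    obtain ⟨hs1, hs2⟩ := of_isFieldTopology hs
    have : s = t := Pool.Agent.MP_db08e8_al.minimal h s hs1 hs2 (fun U hU => hle U hU)
    rw [this]
    exact hU
  · -- a countable basis of neighbourhoods of `0`
    have h0 : (@nhds (FractionRing (MvPolynomial ℕ ℚ)) t 0).IsCountablyGenerated := by
      have hb : (@nhds (FractionRing (MvPolynomial ℕ ℚ)) t 0).HasBasis (fun _ : ℕ × ℕ => True)
          (fun i => Pool.Agent.MP_db08e8_al.nb Pool.Agent.MP_db08e8_al.P
            Pool.Agent.MP_db08e8_al.V i.1 ((i.2 : ℝ≥0∞) + 1)⁻¹) := by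
        constructor
        intro S
        rw [Pool.Agent.MP_db08e8_al.nhds_zero_basis h]
        constructor
        · rintro ⟨n, δ, hδ, hS⟩
          obtain ⟨k, hk⟩ := ENNReal.exists_inv_nat_lt hδ.ne'
          refine ⟨(n, k), trivial, Set.Subset.trans
            (Pool.Agent.MP_db08e8_al.nb_mono h le_rfl ?_) hS⟩
          refine le_trans ?_ hk.le
          exact ENNReal.inv_le_inv.2 le_self_add
        · rintro ⟨⟨n, k⟩, -, hS⟩
          refine ⟨n, ((k : ℝ≥0∞) + 1)⁻¹, ?_, hS⟩
          exact ENNReal.inv_pos.2 (ENNReal.add_ne_top.2 ⟨ENNReal.natCast_ne_top k,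
            ENNReal.one_ne_top⟩)
      exact hb.isCountablyGenerated
    refine ⟨fun x => ?_⟩
    rw [← map_add_left_nhds_zero x]
    exact Filter.map.isCountablyGenerated _ _

end Pool.Agent.Results.MP_db08e8_al.RationalFunctions
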